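import Pool.Agent.N549.HG.Stm

/-!
HG/POS: the integral `In n t` is nonnegative for `0 ≤ t ≤ n / 2`.
-/

set_option autoImplicit false

namespace Pool.Agent.N130.HG

open Real Pool.Agent.N549.HG
open MeasureTheory intervalIntegral

/-- the auxiliary integral -/
noncomputable def J (n : ℕ) (t : ℝ) : ℝ :=
  ∫ φ in (-(π / 2))..(π / 2), sin (t * sin φ) * sin φ * cos φ ^ n

theorem int1 (f : ℝ → ℝ) (hf : Continuous f) (a b : ℝ) : IntervalIntegrable f volume a b :=
  hf.intervalIntegrable a b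

theorem rec1 (k : ℕ) (t : ℝ) : t * In (k + 2) t = (k + 1) * J k t := by
  have h1 : ∀ p : ℝ, HasDerivAt (fun p => sin (t * sin p) * cos p ^ (k + 1))
      (t * (cos (t * sin p) * cos p ^ (k + 2)) - (k + 1) * (sin (t * sin p) * sin p * cos p ^ k)) p := by
    intro p
    have h2 : HasDerivAt (fun p => sin (t * sin p)) (cos (t * sin p) * (t * cos p)) p :=
      ((hasDerivAt_sin p).const_mul t).sin
    have h3 : HasDerivAt (fun p => cos p ^ (k + 1)) (((k + 1 : ℕ) : ℝ) * cos p ^ k * (-sin p)) p := by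
      simpa using (hasDerivAt_cos p).fun_pow (k + 1)
    refine (h2.fun_mul h3).congr_deriv ?_
    push_cast
    ring
  have h4 := integral_eq_sub_of_hasDerivAt (a := -(π / 2)) (b := π / 2) (fun p _ => h1 p)
    (int1 _ (by fun_prop) _ _)
  rw [integral_sub (int1 _ (by fun_prop) _ _) (int1 _ (by fun_prop) _ _),
    intervalIntegral.integral_const_mul, intervalIntegral.integral_const_mul] at h4
  simp only [cos_pi_div_two, cos_neg, zero_pow (Nat.succ_ne_zero k), mul_zero, sub_zero] at h4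
  unfold In J
  linarith

theorem rec2 (k : ℕ) (t : ℝ) : t * J (k + 2) t = (k + 2) * In (k + 2) t - (k + 1) * In k t := by
  have h1 : ∀ p : ℝ, HasDerivAt (fun p => cos (t * sin p) * (sin p * cos p ^ (k + 1)))
      (-(t * (sin (t * sin p) * sin p * cos p ^ (k + 2))) +
        ((k + 2) * (cos (t * sin p) * cos p ^ (k + 2)) - (k + 1) * (cos (t * sin p) * cos p ^ k))) p := by
    intro p
    have h2 : HasDerivAt (fun p => cos (t * sin p)) (-sin (t * sin p) * (t * cos p)) p :=
      ((hasDerivAt_sin p).const_mul t).cos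
    have h3 : HasDerivAt (fun p => cos p ^ (k + 1)) (((k + 1 : ℕ) : ℝ) * cos p ^ k * (-sin p)) p := by
      simpa using (hasDerivAt_cos p).fun_pow (k + 1)
    refine (h2.fun_mul ((hasDerivAt_sin p).fun_mul h3)).congr_deriv ?_
    have h5 := sin_sq_add_cos_sq p
    push_cast
    have h6 : sin p * ((k + 1 : ℝ) * cos p ^ k * (-sin p)) =
      (k + 1) * cos p ^ (k + 2) - (k + 1) * cos p ^ k := by
      have : sin p ^ 2 = 1 - cos p ^ 2 := by linarith
      calc sin p * ((k + 1 : ℝ) * cos p ^ k * (-sin p)) = -((k + 1) * cos p ^ k * sin p ^ 2) := by ring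
        _ = _ := by rw [this]; ring
    rw [h6]
    ring
  have h4 := integral_eq_sub_of_hasDerivAt (a := -(π / 2)) (b := π / 2) (fun p _ => h1 p)
    (int1 _ (by fun_prop) _ _)
  rw [integral_add (int1 _ (by fun_prop) _ _) (int1 _ (by fun_prop) _ _),
    integral_sub (int1 _ (by fun_prop) _ _) (int1 _ (by fun_prop) _ _),
    intervalIntegral.integral_neg,
    intervalIntegral.integral_const_mul, intervalIntegral.integral_const_mul,
    intervalIntegral.integral_const_mul] at h4
  simp only [cos_pi_div_two, cos_neg, zero_pow (Nat.succ_ne_zero k), mul_zero, sub_zero] at h4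
  unfold In J
  linarith

/-- the recurrence -/
theorem rec3 (k : ℕ) (t : ℝ) :
    (k + 1) * In k t = (k + 2) * In (k + 2) t - t ^ 2 / (k + 3) * In (k + 4) t := by
  have h1 := rec1 (k + 2) t
  have h2 := rec2 k t
  push_cast at h1
  have h3 : (k : ℝ) + 3 ≠ 0 := by positivity
  have h4 : t ^ 2 / (k + 3) * In (k + 4) t = t * J (k + 2) t := by
    have h5 : t * (t * In (k + 2 + 2) t) = t * ((k + 2 + 1) * J (k + 2) t) := by rw [h1]
    rw [div_mul_eq_mul_div, div_eq_iff h3]
    have e : k + 2 + 2 = k + 4 := rfl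
    rw [e] at h5
    linarith
  rw [h4, h2]
  ring

theorem In_zero_pos (n : ℕ) : 0 < In n 0 := by
  unfold In
  apply intervalIntegral_pos_of_pos_on (int1 _ (by fun_prop) _ _)
  · intro x hx
    have := cos_pos_of_mem_Ioo hx
    simp only [zero_mul, cos_zero, one_mul]
    positivity
  · have := pi_pos
    linarith

theorem In_zero_rec (k : ℕ) : (k + 1) * In k 0 = (k + 2) * In (k + 2) 0 := by
  have := rec3 k 0
  simpa using this

theorem In_le (n : ℕ) (t : ℝ) : In n t ≤ In n 0 := by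
  unfold In
  apply integral_mono_on (by have := pi_pos; linarith) (int1 _ (by fun_prop) _ _)
    (int1 _ (by fun_prop) _ _)
  intro x hx
  have h1 := cos_nonneg_of_mem_Icc hx
  have h2 : 0 ≤ cos x ^ n := by positivity
  simp only [zero_mul, cos_zero]
  exact mul_le_mul_of_nonneg_right (cos_le_one _) h2

theorem In_ge (n : ℕ) (t : ℝ) : In n 0 - t ^ 2 / 2 * (In n 0 - In (n + 2) 0) ≤ In n t := by
  have h0 : In n 0 - t ^ 2 / 2 * (In n 0 - In (n + 2) 0) =
      ∫ φ in (-(π / 2))..(π / 2), (1 - t ^ 2 / 2 * sin φ ^ 2) * cos φ ^ n := by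
    unfold In
    rw [← intervalIntegral.integral_sub (int1 _ (by fun_prop) _ _) (int1 _ (by fun_prop) _ _),
      ← intervalIntegral.integral_const_mul,
      ← intervalIntegral.integral_sub (int1 _ (by fun_prop) _ _) (int1 _ (by fun_prop) _ _)]
    apply intervalIntegral.integral_congr
    intro x _
    have h5 : sin x ^ 2 = 1 - cos x ^ 2 := by
      have := sin_sq_add_cos_sq x
      linarith
    simp only [zero_mul, cos_zero, one_mul]
    rw [h5]
    ring
  rw [h0]
  unfold In
  apply integral_mono_on (by have := pi_pos; linarith) (int1 _ (by fun_prop) _ _)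
    (int1 _ (by fun_prop) _ _)
  intro x hx
  have h1 := cos_nonneg_of_mem_Icc hx
  have h2 : 0 ≤ cos x ^ n := by positivity
  refine mul_le_mul_of_nonneg_right ?_ h2
  have := one_sub_sq_div_two_le_cos (x := t * sin x)
  calc 1 - t ^ 2 / 2 * sin x ^ 2 = 1 - (t * sin x) ^ 2 / 2 := by ring
    _ ≤ _ := this

/-- the start of the downward induction -/
theorem claim_base (m : ℕ) (t : ℝ) (ht : t ^ 2 ≤ m + 2) :
    0 < In m t ∧ In (m + 2) t ≤ 2 * (m + 1) / (m + 2) * In m t := by
  have h1 := In_ge m t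
  have h2 := In_zero_rec m
  have h3 := In_le (m + 2) t
  have h4 := In_zero_pos m
  have hm : (0 : ℝ) < m + 2 := by positivity
  have h5 : In (m + 2) 0 = (m + 1) / (m + 2) * In m 0 := by
    rw [div_mul_eq_mul_div, eq_div_iff hm.ne']
    linarith
  have h6 : In m 0 - In (m + 2) 0 = In m 0 / (m + 2) := by
    rw [h5]
    field_simp
    ring
  rw [h6] at h1
  have h7 : t ^ 2 / 2 * (In m 0 / (m + 2)) ≤ In m 0 / 2 := by
    have : t ^ 2 / 2 * (In m 0 / (m + 2)) = (t ^ 2 / (m + 2)) * (In m 0 / 2) := by ring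
    rw [this]
    have h8 : t ^ 2 / (m + 2) ≤ 1 := (div_le_one hm).2 ht
    nlinarith
  have h8 : In m 0 / 2 ≤ In m t := by linarith
  refine ⟨by linarith, h3.trans ?_⟩
  rw [h5]
  have h9 : (0 : ℝ) ≤ (m + 1) / (m + 2) := by positivity
  have : 2 * ((m : ℝ) + 1) / (m + 2) * In m t = (m + 1) / (m + 2) * (2 * In m t) := by ring
  rw [this]
  exact mul_le_mul_of_nonneg_left (by linarith) h9

theorem claim_step (m : ℕ) (t : ℝ) (ht : t ^ 2 ≤ (m + 2) * (m + 4) / 4)
    (h : 0 < In (m + 2) t ∧ In (m + 2 + 2) t ≤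
      2 * (((m + 2 : ℕ) : ℝ) + 1) / (((m + 2 : ℕ) : ℝ) + 2) * In (m + 2) t) :
    0 < In m t ∧ In (m + 2) t ≤ 2 * (m + 1) / (m + 2) * In m t := by
  obtain ⟨h1, h2⟩ := h
  have h3 := rec3 m t
  have e : m + 2 + 2 = m + 4 := rfl
  rw [e] at h2
  push_cast at h2
  have hm2 : (0 : ℝ) < m + 2 := by positivity
  have hm3 : (0 : ℝ) < m + 3 := by positivity
  have hm4 : (0 : ℝ) < m + 4 := by positivity
  have h4 : t ^ 2 / (m + 3) * In (m + 4) t ≤ (m + 2) / 2 * In (m + 2) t := by
    calc t ^ 2 / (m + 3) * In (m + 4) t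
        ≤ t ^ 2 / (m + 3) * (2 * ((m : ℝ) + 2 + 1) / (m + 2 + 2) * In (m + 2) t) :=
          mul_le_mul_of_nonneg_left h2 (by positivity)
      _ = (2 * t ^ 2 / (m + 4)) * In (m + 2) t := by
          have e1 : (m : ℝ) + 2 + 1 = m + 3 := by ring
          have e2 : (m : ℝ) + 2 + 2 = m + 4 := by ring
          rw [e1, e2]
          field_simp
      _ ≤ (m + 2) / 2 * In (m + 2) t := by
          refine mul_le_mul_of_nonneg_right ?_ h1.le
          rw [div_le_iff₀ hm4]
          linarith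
  have h5 : (m + 2) / 2 * In (m + 2) t ≤ (m + 1) * In m t := by
    rw [h3]
    linarith
  have h6 : 0 < (m + 1 : ℝ) * In m t := lt_of_lt_of_le (by positivity) h5
  refine ⟨pos_of_mul_pos_right h6 (by positivity), ?_⟩
  rw [div_mul_eq_mul_div, le_div_iff₀ hm2]
  linarith

theorem claim_all (n : ℕ) (t : ℝ) (ht : ∀ m : ℕ, n ≤ m → t ^ 2 ≤ (m + 2) * (m + 4) / 4) (d : ℕ) :
    ∀ m : ℕ, n ≤ m → t ^ 2 ≤ m + 2 * d + 2 →
    0 < In m t ∧ In (m + 2) t ≤ 2 * (m + 1) / (m + 2) * In m t := by
  induction d with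
  | zero =>
    intro m _ hm
    exact claim_base m t (by simpa using hm)
  | succ d ih =>
    intro m hnm hm
    refine claim_step m t (ht m hnm) (ih (m + 2) (by omega) ?_)
    push_cast at hm ⊢
    linarith

theorem pos : S_POS := by
  intro n t h0 ht
  obtain ⟨d, hd⟩ := exists_nat_gt (t ^ 2)
  refine (claim_all n t ?_ d n le_rfl ?_).1.le
  · intro m hm
    have h1 : (n : ℝ) ≤ m := by exact_mod_cast hm
    have h2 : t ^ 2 ≤ (n / 2 : ℝ) ^ 2 := by gcongr
    have h3 : (0 : ℝ) ≤ n := n.cast_nonneg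
    nlinarith
  · have h3 : (0 : ℝ) ≤ n := n.cast_nonneg
    have h4 : (0 : ℝ) ≤ d := d.cast_nonneg
    linarith

end Pool.Agent.N130.HG
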