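import Pool.Agent.N549.HG.Stm

/-!
HG/SUP: supersaturation from Fourier coefficients on the torus.
-/

set_option autoImplicit false

namespace Pool.Agent.N130.HG

open MeasureTheory UnitAddTorus Pool.Agent.N549.HG
open scoped ComplexConjugate ENNReal

instance instProbVol (n : ℕ) : IsProbabilityMeasure (vol n) := by unfold vol; infer_instance

instance instHaarVol (n : ℕ) : (vol n).IsAddHaarMeasure := by unfold vol; infer_instance

instance instSub₂ (n : ℕ) : MeasurableSub₂ (Torus n) := ⟨by
  have h : Continuous fun p : Torus n × Torus n => p.1 - p.2 := by fun_prop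
  exact h.measurable⟩

theorem mFourier_add_arg {n : ℕ} (k : Fin n → ℤ) (z y : Torus n) :
    mFourier k (z + y) = mFourier k z * mFourier k y := by
  simp only [mFourier, ContinuousMap.coe_mk, Pi.add_apply, ← Finset.prod_mul_distrib]
  refine Finset.prod_congr rfl fun i _ => ?_
  simp [fourier_apply, smul_add, AddCircle.toCircle_add]

theorem norm_mFourier_le {n : ℕ} (k : Fin n → ℤ) (z : Torus n) : ‖mFourier k z‖ ≤ 1 := by
  have := (mFourier k).norm_coe_le_norm z
  rwa [mFourier_norm] at this

theorem parseval_Lp (n : ℕ) (f g : Lp ℂ 2 (vol n)) :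
    HasSum (fun k : Fin n → ℤ => conj (∫ t, mFourier (-k) t * f t ∂(vol n)) *
      ∫ t, mFourier (-k) t * g t ∂(vol n)) (∫ t, conj (f t) * g t ∂(vol n)) :=
  hasSum_prod_mFourierCoeff f g

theorem parseval (n : ℕ) (f g : Torus n → ℂ) (hf : Measurable f) (hg : Measurable g)
    (hf1 : ∀ x, ‖f x‖ ≤ 1) (hg1 : ∀ x, ‖g x‖ ≤ 1) :
    HasSum (fun k : Fin n → ℤ => conj (∫ t, mFourier (-k) t * f t ∂(vol n)) *
      ∫ t, mFourier (-k) t * g t ∂(vol n)) (∫ t, conj (f t) * g t ∂(vol n)) := by
  have hf2 : MemLp f 2 (vol n) :=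
    MemLp.of_bound hf.aestronglyMeasurable 1 (Filter.Eventually.of_forall hf1)
  have hg2 : MemLp g 2 (vol n) :=
    MemLp.of_bound hg.aestronglyMeasurable 1 (Filter.Eventually.of_forall hg1)
  have h := parseval_Lp n (hf2.toLp f) (hg2.toLp g)
  have e1 : ∀ k : Fin n → ℤ, ∫ t, mFourier (-k) t * (hf2.toLp f) t ∂(vol n) =
      ∫ t, mFourier (-k) t * f t ∂(vol n) := fun k =>
    integral_congr_ae (hf2.coeFn_toLp.mono fun t ht => by simp only [ht])
  have e2 : ∀ k : Fin n → ℤ, ∫ t, mFourier (-k) t * (hg2.toLp g) t ∂(vol n) =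
      ∫ t, mFourier (-k) t * g t ∂(vol n) := fun k =>
    integral_congr_ae (hg2.coeFn_toLp.mono fun t ht => by simp only [ht])
  have e3 : ∫ t, conj ((hf2.toLp f) t) * (hg2.toLp g) t ∂(vol n) =
      ∫ t, conj (f t) * g t ∂(vol n) :=
    integral_congr_ae (by
      filter_upwards [hf2.coeFn_toLp, hg2.coeFn_toLp] with t h1 h2
      rw [h1, h2])
  rw [e3] at h
  simp only [e1, e2] at h
  exact h

/-- the convolution -/
theorem coeff_conv (n : ℕ) (N K : Set (Torus n)) (hN : MeasurableSet N) (hsym : ∀ y, -y ∈ N ↔ y ∈ N)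
    (hK : MeasurableSet K) (k : Fin n → ℤ) :
    ∫ x, mFourier k x * ((vol n).real (K ∩ {y | y - x ∈ N}) : ℂ) ∂(vol n) =
      (∫ z in N, mFourier k z ∂(vol n)) * ∫ y, mFourier k y * K.indicator 1 y ∂(vol n) := by
  classical
  have hmeas2 : MeasurableSet {p : Torus n × Torus n | p.2 - p.1 ∈ N} :=
    (measurable_snd.sub measurable_fst) hN
  have h1 : ∀ x, ((vol n).real (K ∩ {y | y - x ∈ N}) : ℂ) =
      ∫ y, (K.indicator 1 y * N.indicator 1 (y - x) : ℂ) ∂(vol n) := by
    intro x
    have hm : MeasurableSet (K ∩ {y | y - x ∈ N}) :=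
      hK.inter ((measurable_id.sub measurable_const) hN)
    have : (fun y => (K.indicator 1 y * N.indicator 1 (y - x) : ℂ)) =
        (K ∩ {y | y - x ∈ N}).indicator (fun _ => (1 : ℂ)) := by
      funext y
      by_cases hy : y ∈ K <;> by_cases hy2 : y - x ∈ N <;> simp [Set.indicator, hy, hy2]
    rw [this, integral_indicator hm, setIntegral_const]
    simp
  have hint : Integrable (Function.uncurry fun (x y : Torus n) =>
      (mFourier k x * (K.indicator 1 y * N.indicator 1 (y - x)) : ℂ)) ((vol n).prod (vol n)) := by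
    refine Integrable.of_bound (C := 1) ?_ ?_
    · have hA : Measurable fun p : Torus n × Torus n => mFourier k p.1 :=
        ((mFourier k).continuous.comp continuous_fst).measurable
      have hB : Measurable fun p : Torus n × Torus n => (K.indicator 1 p.2 : ℂ) :=
        (measurable_one.indicator hK).comp measurable_snd
      have hC : Measurable fun p : Torus n × Torus n => (N.indicator 1 (p.2 - p.1) : ℂ) :=
        (measurable_one.indicator hN).comp (measurable_snd.sub measurable_fst)
      exact (hA.mul (hB.mul hC)).aestronglyMeasurable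
    · refine Filter.Eventually.of_forall fun p => ?_
      simp only [Function.uncurry, norm_mul]
      have h2 : ∀ (S : Set (Torus n)) (y : Torus n), ‖(S.indicator 1 y : ℂ)‖ ≤ 1 := by
        intro S y
        by_cases hy : y ∈ S <;> simp [Set.indicator, hy]
      calc ‖mFourier k p.1‖ * (‖(K.indicator 1 p.2 : ℂ)‖ * ‖(N.indicator 1 (p.2 - p.1) : ℂ)‖)
          ≤ 1 * (1 * 1) := by
            gcongr
            · exact norm_mFourier_le k p.1
            · exact h2 _ _
            · exact h2 _ _
        _ = 1 := by norm_num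
  calc ∫ x, mFourier k x * ((vol n).real (K ∩ {y | y - x ∈ N}) : ℂ) ∂(vol n)
      = ∫ x, ∫ y, (mFourier k x * (K.indicator 1 y * N.indicator 1 (y - x)) : ℂ) ∂(vol n)
          ∂(vol n) := by
        refine integral_congr_ae (Filter.Eventually.of_forall fun x => ?_)
        simp only []
        rw [h1, ← integral_const_mul]
    _ = ∫ y, ∫ x, (mFourier k x * (K.indicator 1 y * N.indicator 1 (y - x)) : ℂ) ∂(vol n)
          ∂(vol n) := integral_integral_swap hint
    _ = ∫ y, (∫ z in N, mFourier k z ∂(vol n)) * (mFourier k y * K.indicator 1 y) ∂(vol n) := by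
        refine integral_congr_ae (Filter.Eventually.of_forall fun y => ?_)
        simp only []
        have h3 : ∀ x, (mFourier k x * (K.indicator 1 y * N.indicator 1 (y - x)) : ℂ) =
            (fun z => (mFourier k y * K.indicator 1 y) * N.indicator (fun z => mFourier k z) z)
              (x - y) := by
          intro x
          have h4 : (N.indicator 1 (y - x) : ℂ) = N.indicator 1 (x - y) := by
            have := hsym (x - y)
            rw [neg_sub] at this
            by_cases h : x - y ∈ N
            · simp [Set.indicator, h, this.2 h]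
            · have h' : y - x ∉ N := fun h' => h (this.1 h')
              simp [Set.indicator, h, h']
          have h5 : mFourier k x = mFourier k (x - y) * mFourier k y := by
            rw [← mFourier_add_arg, sub_add_cancel]
          rw [h4]
          by_cases h : x - y ∈ N
          · simp only [Set.indicator, h, if_true, Pi.one_apply]
            rw [h5]
            ring
          · simp [Set.indicator, h]
        simp_rw [h3]
        rw [integral_sub_right_eq_self (μ := vol n)
          (fun z => (mFourier k y * K.indicator 1 y) * N.indicator (fun z => mFourier k z) z) y,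
          integral_const_mul, integral_indicator hN]
        ring
    _ = _ := by rw [integral_const_mul]

theorem sup : S_SUP := by
  classical
  intro n N hN hsym D κ hD0 hκ hD hco K hK
  set f : Torus n → ℂ := K.indicator 1 with hf
  set gr : Torus n → ℝ := fun x => (vol n).real (K ∩ {y | y - x ∈ N}) with hgr
  set g : Torus n → ℂ := fun x => ((gr x : ℝ) : ℂ) with hg
  have hfm : Measurable f := measurable_one.indicator hK
  have hmeas2 : MeasurableSet {p : Torus n × Torus n | p.2 ∈ K ∧ p.2 - p.1 ∈ N} :=
    (measurable_snd hK).inter ((measurable_snd.sub measurable_fst) hN)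
  have hgm0 : Measurable gr := (measurable_measure_prodMk_left (ν := vol n) hmeas2).ennreal_toReal
  have hgm : Measurable g := Complex.measurable_ofReal.comp hgm0
  have hf1 : ∀ x, ‖f x‖ ≤ 1 := by
    intro x
    by_cases hy : x ∈ K <;> simp [hf, Set.indicator, hy]
  have hgr0 : ∀ x, 0 ≤ gr x := fun x => measureReal_nonneg
  have hgr1 : ∀ x, gr x ≤ 1 := fun x => measureReal_le_one
  have hg1 : ∀ x, ‖g x‖ ≤ 1 := by
    intro x
    rw [hg]
    simp only [Complex.norm_real, Real.norm_eq_abs, abs_of_nonneg (hgr0 x)]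
    exact hgr1 x
  obtain ⟨a, ha⟩ : ∃ a : (Fin n → ℤ) → ℂ, ∀ k, a k = ∫ t, mFourier (-k) t * f t ∂(vol n) :=
    ⟨_, fun _ => rfl⟩
  obtain ⟨ν, hν⟩ : ∃ ν : (Fin n → ℤ) → ℂ, ∀ k, ν k = ∫ z in N, mFourier (-k) z ∂(vol n) :=
    ⟨_, fun _ => rfl⟩
  have hb : ∀ k, ∫ t, mFourier (-k) t * g t ∂(vol n) = ν k * a k := by
    intro k
    rw [ha, hν]
    exact coeff_conv n N K hN hsym hK (-k)
  have h1 := parseval n f g hfm hgm hf1 hg1
  have h2 := parseval n f f hfm hfm hf1 hf1
  simp_rw [hb, ← ha] at h1
  simp_rw [← ha] at h2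
  -- real parts
  have e1 : (∫ t, conj (f t) * g t ∂(vol n)).re = ∫ x in K, gr x ∂(vol n) := by
    have h3 : (fun t => conj (f t) * g t) = fun t => ((K.indicator gr t : ℝ) : ℂ) := by
      funext t
      by_cases ht : t ∈ K <;> simp [hf, hg, Set.indicator, ht]
    rw [h3, integral_complex_ofReal, Complex.ofReal_re, integral_indicator hK]
  have e2 : (∫ t, conj (f t) * f t ∂(vol n)).re = (vol n).real K := by
    have h3 : (fun t => conj (f t) * f t) = fun t => ((K.indicator (fun _ => (1 : ℝ)) t : ℝ) : ℂ) := by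
      funext t
      by_cases ht : t ∈ K <;> simp [hf, Set.indicator, ht]
    rw [h3, integral_complex_ofReal, Complex.ofReal_re, integral_indicator hK, setIntegral_const]
    simp
  have h3 := Complex.hasSum_re h1
  have h4 := Complex.hasSum_re h2
  rw [e1] at h3
  rw [e2] at h4
  have h5 : ∀ k, (conj (a k) * (ν k * a k)).re = ‖a k‖ ^ 2 * (ν k).re := by
    intro k
    have : conj (a k) * (ν k * a k) = ((‖a k‖ ^ 2 : ℝ) : ℂ) * ν k := by
      have := Complex.conj_mul' (a k)
      calc conj (a k) * (ν k * a k) = (conj (a k) * a k) * ν k := by ring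
        _ = _ := by rw [this]; push_cast; ring
    rw [this, Complex.re_ofReal_mul]
  have h6 : ∀ k, (conj (a k) * a k).re = ‖a k‖ ^ 2 := by
    intro k
    rw [Complex.conj_mul', ← Complex.ofReal_pow, Complex.ofReal_re]
  simp_rw [h5] at h3
  simp_rw [h6] at h4
  have h7 := h3.add (h4.mul_left (κ * D))
  have h8 : ∀ k, ‖a k‖ ^ 2 * (ν k).re + κ * D * ‖a k‖ ^ 2 = ‖a k‖ ^ 2 * ((ν k).re + κ * D) := by
    intro k; ring
  simp_rw [h8] at h7
  have hν0 : (ν 0).re = D := by
    rw [hν, neg_zero, mFourier_zero]
    simp only [ContinuousMap.one_apply]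
    rw [setIntegral_const]
    simp [hD]
  have ha0 : ‖a 0‖ = (vol n).real K := by
    rw [ha, neg_zero, mFourier_zero]
    simp only [ContinuousMap.one_apply, one_mul]
    have h9 : f = fun t => ((K.indicator (fun _ => (1 : ℝ)) t : ℝ) : ℂ) := by
      funext t
      by_cases ht : t ∈ K <;> simp [hf, Set.indicator, ht]
    rw [h9, integral_complex_ofReal, integral_indicator hK, setIntegral_const]
    simp [abs_of_nonneg]
  have h9 := le_hasSum h7 0 fun k hk => by
    have h10 := hco (-k) (neg_ne_zero.2 hk)
    have h11 : (∫ y in N, (∏ i, fourier ((-k) i) (y i) : ℂ) ∂(vol n)) = ν k := by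
      rw [hν]
      rfl
    rw [h11] at h10
    refine mul_nonneg (by positivity) ?_
    linarith
  rw [hν0, ha0] at h9
  have h12 : 0 ≤ κ * D * (vol n).real K ^ 2 := by positivity
  have h13 : (vol n).real K ^ 2 * (D + κ * D) ≤ (∫ x in K, gr x ∂(vol n)) + κ * D * (vol n).real K := h9
  nlinarith

end Pool.Agent.N130.HG
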